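import Pool.Agent.U553.HY.Split
import Pool.Agent.Results.MP_e54452_nt.AlmostAllTuples

/-!
# MP_e54452_nt: the period map and the relations off a bounded number of hyperplanes of arguments

Let `G` be a `ℚ`-algebra `H` without zero divisors with elements `mot(k)` for the admissible indices `k`, `mot() = 1`,
that have the stuffle product, and with a ring homomorphism `per : H → ℂ` that maps `mot(k)` to `ζ(k)`; for example the
motivic periods with the motivic multiple zeta values.

A pattern in `k` variables is a list of letters `b + u_1 s_1 + ... + u_k s_k` with natural numbers `b`, `u_j`; at a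
tuple `s` of natural numbers it gives an index. Its constant part is the list of its first letters up to the first letter
that depends on the variables. A property of tuples and heights holds off few hyperplanes if for every `κ` there is `K` such
that for all `C` and all large `N` the tuples `s`, `2 ≤ s_j ≤ κ N`, for which in each of the patterns the first letter which
depends on the variables is at least `N`, and for which the property fails for the height `C ^ N`, lie on at most `K`
hyperplanes `∑ b_j s_j = c` with integers `c` and `b_j`, not all zero, `|b_j| ≤ K`. The later letters may be small.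

Theorem.
(1) Off few hyperplanes each linear relation of height at most `C ^ N` between the numbers `ζ(w_i(s))` is a combination
`∑_u (∑_q d_u(q) Z(q)) Z(u)` of linear relations `∑_q d_u(q) ζ(q) = 0` between the initial segments `q` of the constant
parts, where the weights of `q` and `u` add up to that of a `w_i(s)`; this holds for all families `Z` with the stuffle
product, in all commutative rings.
(2) Let `Q` be a set of admissible indices with the empty index that contains the initial segments of its elements. Then
`per` is injective on the span of the `mot(q)`, `q ∈ Q`, if and only if for all patterns with constant parts in `Q`, in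
any number of variables, off few hyperplanes each linear relation between the numbers `ζ(w_i(s))` holds for the `mot(w_i(s))`.
For `Q` the set of all admissible indices this is the injectivity of `per` on all (motivic) multiple zeta values.
(3) The same for the spans of the `mot(q)`, `q ∈ Q`, of one weight and homogeneous relations.
(4) The same for the algebra generated by the `mot(q)`, `q ∈ Q`, and polynomial relations of bounded degree.
(5) Let `mot(2, 1) = mot(3)`, `4 mot(3, 1) = mot(4)`, `4 mot(2, 2) = 3 mot(4)`, `mot(2, 1, 1) = mot(4)`, and let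
`mot(2 m)` be a rational multiple of `mot(2) ^ m`, as for the motivic multiple zeta values. Then off few hyperplanes
the linear relations lift, if the constant parts have weight at most three; the homogeneous linear relations lift, if
the constant parts have weight at most four or are of the form `(2 m, ..., 2 m)`; and the polynomial relations of bounded
degree lift, if the constant parts are of the form `(2 m, ..., 2 m)`.

The theorem `AlmostAllTuples` of this page (helper758) has these statements for all but `K N ^ (k - 1)` of the tuples in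
`[N, κ N] ^ k`. Here the exceptional tuples lie on a bounded number of hyperplanes and letters may be small; so there are
consequences for families with fewer than `N ^ (k - 1)` tuples. Proof: `Pool.Agent.U553.HY`, with `Pool.Agent.X90.DC` and
`Pool.Agent.N665.LP` of the starting library, for the splitting; the rest as in `AlmostAllTuples`.
-/

set_option autoImplicit false

namespace Pool.Agent.Results.MP_e54452_nt.ExceptionalHyperplanes

open Pool.Agent.Results.MP_e54452_nt.AlmostAllTuples
open Pool.Agent.N758.MT
open Pool.Agent.U553.HY (Range OnHyperplanes OffH splitL liftL liftL_hom liftLP)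

/-- For all `κ` there is `K` such that for all `C` and all sufficiently large `N` the tuples `s` with `2 ≤ s_j ≤ κ N`, for
which the first letters of the patterns `w_i` which are not constant are at least `N`, and for which `P (C ^ N) s` fails, lie
on at most `K` hyperplanes `∑ b_j s_j = c` with integers `c` and `b_j`, not all zero, `|b_j| ≤ K`. -/
def OffHyperplanes {k r : ℕ} (w : Fin r → List (Letter k)) (P : ℝ → (Fin k → ℕ) → Prop) : Prop :=
  ∀ κ : ℕ, ∃ K : ℕ, ∀ C : ℝ, ∃ N₀ : ℕ, ∀ N : ℕ, N₀ ≤ N →
    OnHyperplanes K {s : Fin k → ℕ | s ∈ Range w κ N ∧ ¬ P (C ^ N) s}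

theorem offHyperplanes_iff {k r : ℕ} (w : Fin r → List (Letter k)) (P : ℝ → (Fin k → ℕ) → Prop) :
    OffHyperplanes w P ↔ OffH w P := Iff.rfl

theorem part1 {k r : ℕ} (w : Fin r → List (Letter k)) (hw : ∀ i, AdmissiblePattern (w i)) :
    OffH w fun B s => ∀ c : Fin r → ℤ, (∀ i, |(c i : ℝ)| ≤ B) →
      ∑ i, (c i : ℝ) * mzv (index s (w i)) = 0 → Splits w s c := by
  refine (splitL w hw).mono fun B s _ h c hc hrel => ?_
  rw [mzv_fun] at hrel
  exact spl (h c hc hrel)

theorem good_one {r : ℕ} {w : Fin r → List (Letter 1)} {P : ℝ → (Fin 1 → ℕ) → Prop} (h : OffH w P)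
    (hmono : ∀ B B' s, B ≤ B' → P B' s → P B s) (B : ℝ) : ∃ s : Fin 1 → ℕ, 2 ≤ s 0 ∧ P B s :=
  h.along.exists_one hmono B

/-- **The period map and the relations off few hyperplanes.** -/
theorem result (G : MotivicValues) :
    -- (1) off few hyperplanes all relations split into relations between initial segments of the constant parts
    (∀ (k r : ℕ) (w : Fin r → List (Letter k)), (∀ i, AdmissiblePattern (w i)) →
      OffHyperplanes w fun B s => ∀ c : Fin r → ℤ, (∀ i, |(c i : ℝ)| ≤ B) →
        ∑ i, (c i : ℝ) * mzv (index s (w i)) = 0 → Splits w s c) ∧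
    (∀ Q : Set (List ℕ), FrontSet Q →
      -- (2) linear relations
      ((∀ x ∈ Submodule.span ℚ (G.mot '' Q), G.per x = 0 → x = 0) ↔
        ∀ (k r : ℕ) (w : Fin r → List (Letter k)),
          (∀ i, AdmissiblePattern (w i) ∧ constantPart (w i) ∈ Q) → OffHyperplanes w (Lifts G w)) ∧
      -- (3) homogeneous linear relations
      ((∀ n, ∀ x ∈ Submodule.span ℚ (G.mot '' {q ∈ Q | q.sum = n}), G.per x = 0 → x = 0) ↔
        ∀ (k r : ℕ) (w : Fin r → List (Letter k)), SameWeight w →
          (∀ i, AdmissiblePattern (w i) ∧ constantPart (w i) ∈ Q) → OffHyperplanes w (Lifts G w)) ∧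
      -- (4) polynomial relations
      ((∀ x ∈ Algebra.adjoin ℚ (G.mot '' Q), G.per x = 0 → x = 0) ↔
        ∀ (k r : ℕ) (w : Fin r → List (Letter k)),
          (∀ i, AdmissiblePattern (w i) ∧ constantPart (w i) ∈ Q) → ∀ D : ℕ,
            OffHyperplanes w (PolyLifts G w D))) ∧
    -- (5) constant parts of small weight, and constant parts `(2 m, ..., 2 m)`
    (G.mot [2, 1] = G.mot [3] → ∀ (k r : ℕ) (w : Fin r → List (Letter k)),
      (∀ i, AdmissiblePattern (w i) ∧ (constantPart (w i)).sum ≤ 3) → OffHyperplanes w (Lifts G w)) ∧
    (SmallRelations G → EulerRelations G → ∀ (k r : ℕ) (w : Fin r → List (Letter k)), SameWeight w →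
      (∀ i, AdmissiblePattern (w i) ∧ ((constantPart (w i)).sum ≤ 4 ∨
        ∃ n m : ℕ, 1 ≤ m ∧ constantPart (w i) = List.replicate n (2 * m))) → OffHyperplanes w (Lifts G w)) ∧
    (EulerRelations G → ∀ (k r : ℕ) (w : Fin r → List (Letter k)),
      (∀ i, AdmissiblePattern (w i) ∧
        ∃ n m : ℕ, 1 ≤ m ∧ constantPart (w i) = List.replicate n (2 * m)) →
      ∀ D : ℕ, OffHyperplanes w (PolyLifts G w D)) := by
  simp only [offHyperplanes_iff]
  refine ⟨fun k r w hw => part1 w hw, fun Q hQ => ?_, fun h21 k r w hw => ?_, fun hS hE k r w hs hw => ?_,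
    fun hE k r w hw D => ?_⟩
  · obtain ⟨h0, hA, hcl⟩ := hQ
    have hA' : ∀ q ∈ Q, q = [] ∨ Pool.Agent.X90.DB.Ad q := fun q hq => (adm_iff q).1 (hA q hq)
    simp only [lifts_iff, polyLifts_iff, constantPart_eq]
    refine ⟨⟨fun h k r w hw => liftL (toMot G) Q hcl w hw h, fun h => ?_⟩,
      ⟨fun h k r w hs hw => liftL_hom (toMot G) Q hcl w hw hs h, fun h n => ?_⟩,
      ⟨fun h k r w hw D => liftLP (toMot G) Q hcl w hw D h, fun h => ?_⟩⟩
    · refine inj_of_lift (toMot G) Q Q hA' subset_rfl hcl fun r w hw B => ?_
      exact good_one (h 1 r w fun i => ⟨(hw i).1, (hw i).2.1⟩) (fun _ _ _ hB h' => h'.mono hB) B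
    · refine inj_of_lift (toMot G) Q {q ∈ Q | q.sum = n} hA' (fun q hq => hq.1) hcl fun r w hw B => ?_
      refine good_one (h 1 r w (fun i j s => ?_) fun i => ⟨(hw i).1, (hw i).2.1⟩) (fun _ _ _ hB h' => h'.mono hB) B
      obtain ⟨q, hq, hqs⟩ := (hw i).2.2.2
      obtain ⟨q', hq', hqs'⟩ := (hw j).2.2.2
      have e1 : (index s (w i)).sum = q.sum + s 0 := hqs s
      have e2 : (index s (w j)).sum = q'.sum + s 0 := hqs' s
      rw [e1, e2, hq.2, hq'.2]
    · refine inj_of_liftP (toMot G) Q h0 hA' hcl fun r w hw D B => ?_
      exact good_one (h 1 r w (fun i => ⟨(hw i).1, (hw i).2.1⟩) D) (fun _ _ _ hB h' => h'.mono hB) B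
  · rw [lifts_iff]
    refine liftL (toMot G) (Wt 3) (wt_closed 3) w (fun i => ⟨(hw i).1, fpx_ad (hw i).1, ?_⟩)
      (inj_three (toMot G) h21)
    rw [← constantPart_eq]
    exact (hw i).2
  · rw [lifts_iff]
    refine liftL_hom (toMot G) (Wt 4 ∪ Ev) ?_ w (fun i => ⟨(hw i).1, ?_⟩) hs (inj_hom (toMot G) hE hS)
    · rintro q (hq | hq) q' h'
      · exact Or.inl (wt_closed 4 q hq q' h')
      · exact Or.inr (ev_closed q hq q' h')
    · rw [← constantPart_eq]
      rcases (hw i).2 with h | h
      · refine Or.inl ⟨?_, h⟩
        rw [constantPart_eq]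
        exact fpx_ad (hw i).1
      · exact Or.inr h
  · rw [polyLifts_iff]
    refine liftLP (toMot G) Ev ev_closed w (fun i => ⟨(hw i).1, ?_⟩) D (inj_ev (toMot G) hE)
    rw [← constantPart_eq]
    exact (hw i).2

end Pool.Agent.Results.MP_e54452_nt.ExceptionalHyperplanes
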