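import Pool.Agent.U725.MT.Fin

/-!
# The period conjecture for mixed Tate motives over the integers, on the level of subtorsors, is equivalent to the
# irrationality of the odd zeta values

Let `M` be a mixed Tate motive over the integers, `B` a basis of `ω_dR(M)` of homogeneous elements of weights `wt b`, and
`G ⊆ GL_B` the image of the motivic Galois group `U^dR ⋊ 𝔾_m` (de Rham). We identify `ω_B(M)` and `ω_dR(M)` by a rational
point of the torsor `Isom^⊗(ω_B, ω_dR)` (which is trivial, since the group is an extension of `𝔾_m` by a unipotent group).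
So the torsor of the motivic periods of `M` becomes the algebraic group `G` over `ℚ`, and the comparison isomorphism is an
element `c = exp(L) τ(2πi)` of `G(ℂ)`, `τ` the action of `𝔾_m`. The Lie algebra `𝔲` of the unipotent part is generated by
elements `N_n`, `n = 3, 5, 7, …` (images of the generators `σ_n` of the free Lie algebra); let `S` be the set of those `n`
for which `N_n` is not a sum of commutators. The coordinate of `L` with respect to `N_n` (modulo commutators) is the period
of the extension of `ℚ(0)` by `ℚ(n)`, for a suitable choice of the rational point it is `ζ(n)`.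

The period conjecture for `M` says that no proper subvariety of the torsor over `ℚ` contains `c`. A weaker conjecture is
that no proper subtorsor (`x y⁻¹ z ∈ T` for `x, y, z ∈ T`) over `ℚ`, or over a field `K` of algebraic numbers, contains
`c`. For `K = ℚ` this is the de Rham-Betti conjecture for `M`: all tensors in all tensor spaces of `M` which are rational
in the de Rham and the Betti realization, and all subspaces with this property, are motivic.

**Theorem.** The smallest `K`-subtorsor which contains the comparison isomorphism of `M` is the whole torsor if and only if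
`ζ(n) ∉ K + K (2πi)^n` for all `n ∈ S`. For `K = ℚ` this means that `ζ(n)` is irrational for all `n ∈ S`.

So the de Rham-Betti conjecture for all mixed Tate motives over the integers is equivalent to the irrationality of all
`ζ(n)`, `n ≥ 3` odd, and unconditionally it holds (by Apéry, and by the theorems of Rivoal and Zudilin) if only generators
`σ_n` with `n = 3`, or with `n` in a certain infinite set of odd numbers, act non-trivially modulo commutators. All multiple
zeta values of depth at least two do not matter.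

We prove this for an arbitrary algebraic group `G` of this form over `ℚ` and arbitrary real numbers in place of `ζ(n)`
(the degrees `n ≥ 1` are also arbitrary in the first part); the theorem `crit`, `Mt.conv` in `Pool/Agent/U725/MT` is for
groups with arbitrarily many generators in each degree: the smallest `K`-subtorsor is everything if and only if for every
linear form `f ≠ 0` over `K` on `𝔲 / [𝔲, 𝔲]`, homogeneous of degree `d`, one has `f(L) ∉ K + K (2πi)^d`.

## Proof

Let `T` be a `K`-subtorsor with `c ∈ T`, and `𝔱`, `𝔱'` the Lie algebras of the groups of the `x y⁻¹` and of the `x⁻¹ y`.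
They are rational over `K`, `c⁻¹ 𝔱 c = 𝔱'`, and the logarithmic derivatives of `c` are in `𝔱 ⊗ ℂ`. Since `2πi` is
transcendental, `𝔱` has a `K`-rational element `H + Y`, `Y ∈ 𝔲`, `H = Lie τ`. So `W = 𝔱 ∩ 𝔲 + [𝔲, 𝔲]` is stable
under `H`, and if it is not equal to `𝔲` there is a homogeneous form `f` on `𝔲` over `K` which vanishes on `W`. Then
`Ad(c)⁻¹ (H + Y) ∈ 𝔱' ⊗ ℂ` for `c` and for all conjugates of `c` over `K` shows that `f(L) ∈ K + K (2πi)^d`. If there
is no such `f`, `𝔱 ∩ 𝔲` generates `𝔲` (Frattini). Conversely, for a form `f` with `f(L) = a + β (2πi)^d`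
the set of all `x ∈ G` with `f(Ad(x) (H + d β N)) = - d a`, `f(N) = 1`, is a proper subtorsor with `c ∈ T`.
-/

set_option autoImplicit false

open Matrix

namespace Pool.Agent.Results.MP_e54452_nt.IrrationalityCriterion

/-- `T` is (the set of complex points of) a `K`-subtorsor of `GL_B`: it is closed under `x y⁻¹ z`, and it is defined in
`GL_B` by polynomials with coefficients in `K`. -/
def IsSubtorsor (K : Subfield ℂ) {B : Type} [Fintype B] [DecidableEq B] (T : Set (Matrix B B ℂ)) : Prop :=
  (∀ x ∈ T, ∀ y ∈ T, ∀ z ∈ T, x * y⁻¹ * z ∈ T) ∧ ∃ J : Set (MvPolynomial (B × B) K), ∀ x : Matrix B B ℂ, x ∈ T ↔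
    IsUnit x ∧ ∀ p ∈ J, MvPolynomial.eval (fun b => x b.1 b.2) (MvPolynomial.map (algebraMap K ℂ) p) = 0

/-- the field of the rational numbers, as a subfield of `ℂ` -/
noncomputable def QQ : Subfield ℂ := (algebraMap ℚ ℂ).fieldRange

/-- `Ω` is the smallest `K`-subtorsor which contains `c` -/
def IsOmega (K : Subfield ℂ) {B : Type} [Fintype B] [DecidableEq B] (c : Matrix B B ℂ) (Ω : Set (Matrix B B ℂ)) : Prop :=
  IsSubtorsor K Ω ∧ c ∈ Ω ∧ ∀ T : Set (Matrix B B ℂ), IsSubtorsor K T → c ∈ T → Ω ⊆ T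

/-- the action of the multiplicative group: the diagonal matrix of the `l ^ wt b` -/
def torus {B : Type} [DecidableEq B] (wt : B → ℕ) (l : ℂ) : Matrix B B ℂ := Matrix.diagonal fun b => l ^ wt b

/-- `X` maps to strictly larger weights -/
def Strict {B : Type} (wt : B → ℕ) (X : Matrix B B ℂ) : Prop := ∀ b b', X b b' ≠ 0 → wt b' < wt b

/-- `G` is an algebraic group over `ℚ` which is the semidirect product of the torus and of a group of unipotent matrices
which are triangular with respect to the weights -/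
structure IsMixedTate {B : Type} [Fintype B] [DecidableEq B] (wt : B → ℕ) (G : Set (Matrix B B ℂ)) : Prop where
  algebraic : IsSubtorsor QQ G
  torus_mem : ∀ l : ℂ, l ≠ 0 → torus wt l ∈ G
  triangular : ∀ x ∈ G, ∃ l : ℂ, l ≠ 0 ∧ Strict wt (x * torus wt l⁻¹ - 1)

/-- the Lie algebra of the unipotent part of `G` -/
def lieU {B : Type} [Fintype B] [DecidableEq B] (wt : B → ℕ) (G : Set (Matrix B B ℂ)) : Set (Matrix B B ℂ) :=
  {X | Strict wt X ∧ IsNilpotent.exp X ∈ G}

/-- the space spanned by the commutators of elements of the Lie algebra -/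
def commutators {B : Type} [Fintype B] [DecidableEq B] (wt : B → ℕ) (G : Set (Matrix B B ℂ)) :
    Submodule ℂ (Matrix B B ℂ) :=
  Submodule.span ℂ {Z | ∃ X ∈ lieU wt G, ∃ Y ∈ lieU wt G, Z = X * Y - Y * X}

/-- a rational matrix as a complex matrix -/
def toC {B : Type} (N : Matrix B B ℚ) : Matrix B B ℂ := N.map fun q => (q : ℂ)

/-- the zeta value `ζ(n)` -/
noncomputable def zeta (n : ℕ) : ℝ := ∑' k : ℕ, 1 / ((k : ℝ) + 1) ^ n

open Pool.Agent.U725.MT Pool.Agent.Y123.ST

section Aux

variable {B : Type} [Fintype B] [DecidableEq B] {wt : B → ℕ} {G : Set (Matrix B B ℂ)}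

theorem QQ_le (K : Subfield ℂ) : QQ ≤ K := by
  rintro _ ⟨q, rfl⟩
  exact SubfieldClass.ratCast_mem K q

theorem toMt (hG : IsMixedTate wt G) {K : Subfield ℂ} (hK : ∀ x ∈ K, IsAlgebraic ℚ x) : Mt K wt G :=
  Mt.of_tri hK (sub_mono (QQ_le K) (subT_iff.1 hG.algebraic)) hG.torus_mem hG.triangular

theorem mem_lieU (hG : IsMixedTate wt G) {K : Subfield ℂ} (hK : ∀ x ∈ K, IsAlgebraic ℚ x) {X : Matrix B B ℂ} :
    X ∈ lieU wt G ↔ fl X ∈ UU wt G :=
  ⟨fun h => (toMt hG hK).log_mem h.1 h.2, fun h => ⟨h.1, (toMt hG hK).exp_mem h⟩⟩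

/-- matrices as functions -/
def flL : Matrix B B ℂ →ₗ[ℂ] (B × B → ℂ) where
  toFun := fl
  map_add' := fl_add
  map_smul' := fl_smul

theorem mem_comm (hG : IsMixedTate wt G) {K : Subfield ℂ} (hK : ∀ x ∈ K, IsAlgebraic ℚ x) {Z : Matrix B B ℂ} :
    Z ∈ commutators wt G ↔ fl Z ∈ CC wt G := by
  have h1 : CC wt G = (commutators wt G).map flL := by
    unfold CC commutators
    rw [Submodule.map_span]
    congr 1
    ext w
    constructor
    · rintro ⟨X, Y, hX, hY, rfl⟩
      exact ⟨_, ⟨X, (mem_lieU hG hK).2 hX, Y, (mem_lieU hG hK).2 hY, rfl⟩, rfl⟩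
    · rintro ⟨_, ⟨X, hX, Y, hY, rfl⟩, rfl⟩
      exact ⟨X, Y, (mem_lieU hG hK).1 hX, (mem_lieU hG hK).1 hY, rfl⟩
  rw [h1]
  constructor
  · exact fun h => ⟨Z, h, rfl⟩
  · rintro ⟨Z', h2, h3⟩
    have h4 : Z' = Z := by
      have := congrArg um h3
      exact this
    rwa [← h4]

end Aux

/-- **Main result.** -/
theorem result {B : Type} [Fintype B] [DecidableEq B] (wt : B → ℕ) (G : Set (Matrix B B ℂ)) (hG : IsMixedTate wt G)
    -- the generators of the Lie algebra
    (S : Finset ℕ) (hS : ∀ n ∈ S, 1 ≤ n) (N : ℕ → Matrix B B ℚ)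
    (hN : ∀ n ∈ S, toC (N n) ∈ lieU wt G ∧ toC (N n) ∉ commutators wt G ∧
      ∀ b b', N n b b' ≠ 0 → wt b = wt b' + n)
    (hspan : ∀ X ∈ lieU wt G, ∃ x : ℕ → ℂ, X - ∑ n ∈ S, x n • toC (N n) ∈ commutators wt G)
    -- the period matrix
    (L : Matrix B B ℂ) (hL : L ∈ lieU wt G) (hLz : L - ∑ n ∈ S, (zeta n : ℂ) • toC (N n) ∈ commutators wt G) :
    (∀ K : Subfield ℂ, (∀ x ∈ K, IsAlgebraic ℚ x) →
      (IsOmega K (IsNilpotent.exp L * torus wt (2 * Real.pi * Complex.I)) G ↔
        ∀ n ∈ S, ∀ a ∈ K, ∀ b ∈ K, (zeta n : ℂ) ≠ a + b * (2 * Real.pi * Complex.I) ^ n)) ∧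
    ((∀ n ∈ S, Odd n) →
      (IsOmega QQ (IsNilpotent.exp L * torus wt (2 * Real.pi * Complex.I)) G ↔ ∀ n ∈ S, Irrational (zeta n))) := by
  classical
  have main : ∀ K : Subfield ℂ, (∀ x ∈ K, IsAlgebraic ℚ x) →
      (IsOmega K (IsNilpotent.exp L * torus wt (2 * Real.pi * Complex.I)) G ↔
        ∀ n ∈ S, ∀ a ∈ K, ∀ b ∈ K, (zeta n : ℂ) ≠ a + b * (2 * Real.pi * Complex.I) ^ n) := by
    intro K hK
    have hM : Mt K wt G := toMt hG hK
    have hLU : fl L ∈ UU wt G := (mem_lieU hG hK).1 hL
    rw [← hM.single transc S hS (fun n => toC (N n)) (fun n hn => (mem_lieU hG hK).1 (hN n hn).1)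
      (fun n hn h => (hN n hn).2.1 ((mem_comm hG hK).2 h))
      (fun n hn b b' hb => (hN n hn).2.2 b b' fun h0 => hb (by
        change ((N n b b' : ℚ) : ℂ) = 0
        rw [h0, Rat.cast_zero]))
      (fun n _ b b' => SubfieldClass.ratCast_mem K (N n b b'))
      (fun X hX => by
        obtain ⟨x, hx⟩ := hspan X ((mem_lieU hG hK).2 hX)
        exact ⟨x, (mem_comm hG hK).1 hx⟩) hLU (fun n => (zeta n : ℂ)) ((mem_comm hG hK).1 hLz)]
    constructor
    · rintro ⟨-, -, h3⟩ T hT hc
      exact h3 T (subT_iff.2 hT) hc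
    · intro h
      refine ⟨subT_iff.2 hM.hG, ?_, fun T hT hc => h T (subT_iff.1 hT) hc⟩
      exact hM.mul_mem hL.2 (hG.torus_mem _ Complex.two_pi_I_ne_zero)
  refine ⟨main, fun hodd => ?_⟩
  have hQ : ∀ x ∈ QQ, IsAlgebraic ℚ x := by
    rintro _ ⟨q, rfl⟩
    exact isAlgebraic_algebraMap q
  rw [main QQ hQ]
  refine forall₂_congr fun n hn => ?_
  constructor
  · rintro h ⟨q, hq⟩
    refine h (q : ℂ) ⟨q, rfl⟩ 0 QQ.zero_mem ?_
    rw [zero_mul, add_zero, ← hq]
    simp
  · rintro h _ ⟨a, rfl⟩ _ ⟨b, rfl⟩ h1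
    apply h
    refine ⟨a, ?_⟩
    obtain ⟨k, hk⟩ := hodd n hn
    have h2 : ((2 * Real.pi * Complex.I : ℂ) ^ n).re = 0 := by
      have h3 : (2 * Real.pi * Complex.I : ℂ) ^ n = (((2 * Real.pi) ^ n * (-1) ^ k : ℝ) : ℂ) * Complex.I := by
        rw [mul_pow, hk, pow_succ Complex.I, pow_mul, Complex.I_sq]
        push_cast
        ring
      rw [h3, Complex.re_ofReal_mul, Complex.I_re, mul_zero]
    have h4 := congrArg Complex.re h1
    have h5 : (algebraMap ℚ ℂ) b = ((b : ℝ) : ℂ) := by simp
    have h6 : (algebraMap ℚ ℂ) a = ((a : ℝ) : ℂ) := by simp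
    rw [h5, h6, Complex.add_re, Complex.re_ofReal_mul, h2, mul_zero, add_zero, Complex.ofReal_re,
      Complex.ofReal_re] at h4
    exact h4.symm

end Pool.Agent.Results.MP_e54452_nt.IrrationalityCriterion
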