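import Pool.Agent.U449.BV.MZ
import Pool.Agent.Results.MP_e54452_nt.AlmostAllTuples

/-!
# Relations between multiple zeta values lift to motivic relations, for arguments near polynomials on arbitrary sets

Let `G` be a `ℚ`-algebra `H` without zero divisors with elements `mot(k)` for the admissible indices `k`, `mot() = 1`, that have the
stuffle product, and with a ring homomorphism `per : H → ℂ` that maps `mot(k)` to `ζ(k)`; for example the motivic periods with the
motivic multiple zeta values.

For the patterns see the starting file `AlmostAllTuples`: a pattern in `k` variables is a list of letters `b + u_1 s_1 + ... + u_k s_k`, and the first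
letters may be constant; at a tuple `s` of natural numbers it gives an index.

Let `C` be a real number and `D`, `l` natural numbers, `κ ≥ 0` and `k - 1 + k κ < δ ≤ k`. Let `p` be a large prime, `f(x, y)` ANY polynomial of
bounded degree over the field of `p ^ k` elements with a monomial which contains both variables (for example `f = x y`), let `A`, `B`
be ARBITRARY subsets of this field with at least `p ^ δ` elements, and `g`, `h` ARBITRARY functions. For all the pairs `(a, b)` in
`A × B`, apart from a proportion of at most `p ^ (-ρ)`, the following holds for ALL tuples `s` of natural numbers in a cone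
`T ≤ s_i ≤ l T` at a distance of at most `p ^ κ` from the tuple of the least residues of the `k` coordinates of
`f(a, b) + g(a) + h(b)`: (1) EVERY linear relation with integer coefficients of absolute value at most `C ^ T` between the numbers `ζ(w_i(s))` of fixed admissible patterns is a combination `∑_u (∑_q d_u(q) Z(q)) Z(u)` of linear relations `∑_q d_u(q) ζ(q) = 0` between the initial segments `q` of the constant parts, for all families `Z` with the stuffle product. (2) If `per` is injective on the algebra generated by the `mot(q)`, `q ∈ Q`, and the constant parts are in `Q`, EVERY polynomial relation of degree at most `D` with coefficients at most `C ^ T` between the `ζ(w_i(s))` holds for the `mot(w_i(s))`. (3) The same without any assumption on `per` if the constant parts are of the form `(2 m, ..., 2 m)` and Euler's relations hold, as for the motivic multiple zeta values. More generally, this holds for the values `F(a, b)` of all vector functions of two variables with few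
coincidences (`RareV`), on arbitrary finite sets. (Some tuples near the values are in no cone; for them nothing is stated.)

The starting file bounds the number of the exceptional tuples in `[N, l N] ^ k` by `K N ^ (k - 1)`, `N` large.

Since the sets and the functions `g` and `h` are arbitrary, the tuples have no arithmetic structure, and a tuple may be
taken by very many pairs. So the number of the exceptions (starting library) does not give the result directly. Proof: the
inequality of Cauchy and Schwarz; for most pairs `a, a'` the difference `F(a, b) - F(a', b)` is small for few `b`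
(`Pool.Agent.U449.BV`).
-/

set_option autoImplicit false

namespace Pool.Agent.Results.MP_e54452_nt.MixedPolynomials

open Finset
open Pool.Agent.U449.BV (RareV OnProductsV on_products_cone coordinates)
open Pool.Agent.Results.MP_e54452_nt.AlmostAllTuples (mzv Letter index AdmissiblePattern constantPart Splits MotivicValues AlmostAll PolyLifts
  FrontSet EulerRelations)

/-- Every linear relation between the numbers `ζ(w_i(s))` with integer coefficients of absolute value at most `H` splits. -/
def AllSplit {k r : ℕ} (w : Fin r → List (Letter k)) (H : ℝ) (s : Fin k → ℕ) : Prop :=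
  ∀ c : Fin r → ℤ, (∀ i, |(c i : ℝ)| ≤ H) → ∑ i, (c i : ℝ) * mzv (index s (w i)) = 0 → Splits w s c

/-- For ALL tuples `s` of natural numbers with `|s_i - x_i| ≤ W` for all `i` and all `T ≥ 1` with `T ≤ s_i ≤ l T` for all `i`: `G (C ^ T) s`. -/
def Near {k : ℕ} (G : ℝ → (Fin k → ℕ) → Prop) (C : ℝ) (l : ℕ) (W : ℝ) (x : Fin k → ℝ) : Prop :=
  ∀ (s : Fin k → ℕ) (T : ℕ), 1 ≤ T → (∀ i, T ≤ s i ∧ s i ≤ l * T) → (∀ i, |(s i : ℝ) - x i| ≤ W) → G (C ^ T) s

lemma pow_bound (C : ℝ) (T : ℕ) : C ^ T ≤ (max |C| 1) ^ T := by
  calc C ^ T ≤ |C ^ T| := le_abs_self _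
    _ = |C| ^ T := abs_pow C T
    _ ≤ (max |C| 1) ^ T := pow_le_pow_left₀ (abs_nonneg C) (le_max_left _ _) T

lemma near_of {k : ℕ} (hk : 1 ≤ k) {P : ℝ → (Fin k → ℕ) → Prop} (mono : ∀ H H' s, H ≤ H' → P H' s → P H s)
    (h : AlmostAll k P) (l : ℕ) (C : ℝ) {κ : ℝ} (hκ : 0 ≤ κ) : OnProductsV k ((k : ℝ) - 1 + k * κ) κ (Near P C l) :=
  (on_products_cone hk (fun H s => ¬ P H s) (fun H H' s hH h1 h2 => h1 (mono H H' s hH h2)) h (max |C| 1)
    (le_max_right _ _) l hκ).mono
    (fun W v _ h' s T hT hs hsv => mono _ _ s (pow_bound C T) (not_not.1 (h' s T hT hs hsv)))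

/-- **Theorem.** Let `k ≥ 1`, `w_1, ..., w_r` admissible patterns in `k` variables, `l` a natural number, `C` a real number and `κ ≥ 0`. Each of
the following properties `Near`, in all cones `T ≤ s_i ≤ l T` and for relations with coefficients at most `C ^ T`, with windows of length
`X ^ κ`, holds for almost all values of vector functions of two variables with few coincidences, on arbitrary finite sets of at
least `X ^ δ` elements, `k - 1 + k κ < δ ≤ k` (`OnProductsV`): (1) linear relations split; (2) if `per` is injective on the algebra
generated by the `mot(q)`, `q ∈ Q`, and the constant parts are in `Q`: polynomial relations of degree at most `D` lift; (3) polynomial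
relations lift if Euler's relations hold and the constant parts are of the form `(2 m, ..., 2 m)`.
The tuples of the least residues modulo `p` of the coordinates (with respect to a basis over the field of `p` elements) of
`f(a, b) + g(a) + h(b)` in a field of `p ^ k` elements are such a function, with `X = p`, for all polynomials `f` over this
field with a monomial which contains both variables, arbitrary functions `g` and `h`, and arbitrary finite subsets. -/
theorem result :
    (∀ (G : MotivicValues) (k r : ℕ), 1 ≤ k → ∀ w : Fin r → List (Letter k), (∀ i, AdmissiblePattern (w i)) →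
      ∀ (l : ℕ) (C κ : ℝ), 0 ≤ κ → OnProductsV k ((k : ℝ) - 1 + k * κ) κ (Near (AllSplit w) C l) ∧
      (∀ Q : Set (List ℕ), FrontSet Q → (∀ x ∈ Algebra.adjoin ℚ (G.mot '' Q), G.per x = 0 → x = 0) →
        (∀ i, constantPart (w i) ∈ Q) → ∀ D : ℕ,
        OnProductsV k ((k : ℝ) - 1 + k * κ) κ (Near (PolyLifts G w D) C l)) ∧
      (EulerRelations G → (∀ i, ∃ n m : ℕ, 1 ≤ m ∧ constantPart (w i) = List.replicate n (2 * m)) → ∀ D : ℕ,
        OnProductsV k ((k : ℝ) - 1 + k * κ) κ (Near (PolyLifts G w D) C l))) ∧
    ∀ (p : ℕ) [Fact p.Prime] (k : ℕ) (K : Type) [Field K] [Algebra (ZMod p) K] (e : Module.Basis (Fin k) (ZMod p) K)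
      (d : ℕ) (f : MvPolynomial (Fin 2) K), f.totalDegree ≤ d → (∃ m ∈ f.support, m 0 ≠ 0 ∧ m 1 ≠ 0) →
      ∀ (g h : K → K) (A B : Finset K),
        RareV d A B (fun a b i => (((e.repr (MvPolynomial.eval ![a, b] f + g a + h b) i).val : ℕ) : ℝ)) := by
  refine ⟨fun G k r hk w hw l C κ hκ => ?_, coordinates⟩
  obtain ⟨h1, h2, -, -, h5⟩ := AlmostAllTuples.result G
  have hmono : ∀ D : ℕ, ∀ H H' s, H ≤ H' → PolyLifts G w D H' s → PolyLifts G w D H s :=
    fun D H H' s hH hs P g1 g2 => hs P g1 fun m => (g2 m).trans hH
  refine ⟨near_of hk (fun H H' s hH hs c g1 => hs c fun i => (g1 i).trans hH) (h1 k r w hw) l C hκ,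
    fun Q hQ hinj hc D => ?_, fun hE he D => ?_⟩
  · obtain ⟨-, -, h4⟩ := h2 Q hQ
    have h6 : (∀ x ∈ Algebra.adjoin ℚ (G.mot '' Q), G.per x = 0 → x = 0) ↔
        (∀ (k r : ℕ) (w : Fin r → List (Letter k)),
          (∀ i, AdmissiblePattern (w i) ∧ constantPart (w i) ∈ Q) → ∀ D : ℕ, AlmostAll k (PolyLifts G w D)) := h4.out 0 1
    exact near_of hk (hmono D) (h6.1 hinj k r w (fun i => ⟨hw i, hc i⟩) D) l C hκ
  · exact near_of hk (hmono D) (h5 hE k r w (fun i => ⟨hw i, he i⟩) D) l C hκ

end Pool.Agent.Results.MP_e54452_nt.MixedPolynomials
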