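import Pool.Agent.Results.MP_e54452_nt.ExceptionalHyperplanes

/-!
# MP_e54452_nt: the period map and the relations at arguments near the values of polynomials and of dispersed sequences

Let `G` be a `ℚ`-algebra `H` without zero divisors with elements `mot(k)` for the admissible indices `k`, `mot() = 1`,
that have the stuffle product, and with a ring homomorphism `per : H → ℂ` that maps `mot(k)` to `ζ(k)`; for example the
motivic periods with the motivic multiple zeta values. A pattern in `k` variables is a list of letters
`b + u_1 s_1 + ... + u_k s_k`; at a tuple `s` it gives an index.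

Real sequences `F_1, ..., F_k` are dispersed if for every nonzero integer vector `b` the intervals of length two contain a
bounded number of the `∑ b_j F_j(n)`; for example the values of real polynomials of which no nontrivial integer combination is
constant. A property of tuples and heights holds along dispersed families if for every `κ` and every dispersed family `F` there
is `K` such that for all `C`, all large `N` and ALL `W` there are at most `K (W + 1)` numbers `n` for which there is a tuple `s`
near `F(n)`, `|s_j - F_j(n)| ≤ W`, `2 ≤ s_j ≤ κ N`, such that in each of the patterns the first letter which depends on the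
variables is at least `N`, and such that the property fails for the height `C ^ N`.

Theorem.
(1) Along dispersed families each linear relation between the numbers `ζ(w_i(s))` is a combination
`∑_u (∑_q d_u(q) Z(q)) Z(u)` of relations `∑_q d_u(q) ζ(q) = 0` between initial segments `q` of the constant parts.
(2) Let `Q` be a set of admissible indices with the empty index that contains the initial segments of its elements. Then
`per` is injective on the span of the `mot(q)`, `q ∈ Q`, if and only if for all patterns with constant parts in `Q`, in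
any number of variables, along all dispersed families the linear relations between the `ζ(w_i(s))` hold for the `mot(w_i(s))`.
(3) The same for spans of one weight and homogeneous relations. (4) The same for the algebra generated by the `mot(q)`,
`q ∈ Q`, and polynomial relations of bounded degree.
(5) Unconditional cases, for the motivic multiple zeta values: constant parts of weight at most three (linear relations), at most
four (homogeneous relations), and constant parts `(2 m, ..., 2 m)` (polynomial relations of bounded degree).
(6) Real polynomials of which no nontrivial integer combination is constant have dispersed values.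

So, for all but a bounded number of the `n` in `[X, κ X]`, the relations of exponential height between values such as
`ζ(2, 2, n^2 + n, n)`, `ζ([√2 n], [√3 n], 1)` hold for the motivic values. These families have one parameter; so this does not
follow from the bound `K N ^ (k - 1)` for the number of the exceptional tuples in `AlmostAllTuples` (helper758).
-/

set_option autoImplicit false

namespace Pool.Agent.Results.MP_e54452_nt.PolynomialArguments

open Pool.Agent.Results.MP_e54452_nt.AlmostAllTuples
open Pool.Agent.Results.MP_e54452_nt.ExceptionalHyperplanes (OffHyperplanes)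
open Pool.Agent.N758.MT
open Pool.Agent.U553.HY (Range Dispersed AlongD)

/-- For all `κ` and all dispersed families `F` there is `K` such that for all `C`, all sufficiently large `N` and all `W` there
are at most `K (W + 1)` numbers `n` for which there is a tuple `s` with `|s_j - F_j(n)| ≤ W` and `2 ≤ s_j ≤ κ N`, such that the
first letters of the patterns `w_i` which are not constant are at least `N`, and such that `P (C ^ N) s` fails. -/
def AlongDispersed {k r : ℕ} (w : Fin r → List (Letter k)) (P : ℝ → (Fin k → ℕ) → Prop) : Prop :=
  ∀ (κ : ℕ) (F : Fin k → ℕ → ℝ), Dispersed F → ∃ K : ℕ, ∀ C : ℝ, ∃ N₀ : ℕ, ∀ N : ℕ, N₀ ≤ N → ∀ W : ℕ,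
    {n : ℕ | ∃ s ∈ Range w κ N, (∀ j, |(s j : ℝ) - F j n| ≤ W) ∧ ¬ P (C ^ N) s}.encard ≤ (K * (W + 1) : ℕ)

theorem along_of {k r : ℕ} {w : Fin r → List (Letter k)} {P : ℝ → (Fin k → ℕ) → Prop}
    (h : OffHyperplanes w P) : AlongDispersed w P :=
  Pool.Agent.U553.HY.OffH.along h

theorem good_one {r : ℕ} {w : Fin r → List (Letter 1)} {P : ℝ → (Fin 1 → ℕ) → Prop} (h : AlongDispersed w P)
    (hmono : ∀ B B' s, B ≤ B' → P B' s → P B s) (B : ℝ) : ∃ s : Fin 1 → ℕ, 2 ≤ s 0 ∧ P B s :=
  Pool.Agent.U553.HY.AlongD.exists_one h hmono B

/-- **The period map and the relations along dispersed families.** -/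
theorem result (G : MotivicValues) :
    -- (1) all relations split into relations between initial segments of the constant parts
    (∀ (k r : ℕ) (w : Fin r → List (Letter k)), (∀ i, AdmissiblePattern (w i)) →
      AlongDispersed w fun B s => ∀ c : Fin r → ℤ, (∀ i, |(c i : ℝ)| ≤ B) →
        ∑ i, (c i : ℝ) * mzv (index s (w i)) = 0 → Splits w s c) ∧
    (∀ Q : Set (List ℕ), FrontSet Q →
      -- (2) linear relations
      ((∀ x ∈ Submodule.span ℚ (G.mot '' Q), G.per x = 0 → x = 0) ↔
        ∀ (k r : ℕ) (w : Fin r → List (Letter k)),
          (∀ i, AdmissiblePattern (w i) ∧ constantPart (w i) ∈ Q) → AlongDispersed w (Lifts G w)) ∧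
      -- (3) homogeneous linear relations
      ((∀ n, ∀ x ∈ Submodule.span ℚ (G.mot '' {q ∈ Q | q.sum = n}), G.per x = 0 → x = 0) ↔
        ∀ (k r : ℕ) (w : Fin r → List (Letter k)), SameWeight w →
          (∀ i, AdmissiblePattern (w i) ∧ constantPart (w i) ∈ Q) → AlongDispersed w (Lifts G w)) ∧
      -- (4) polynomial relations
      ((∀ x ∈ Algebra.adjoin ℚ (G.mot '' Q), G.per x = 0 → x = 0) ↔
        ∀ (k r : ℕ) (w : Fin r → List (Letter k)),
          (∀ i, AdmissiblePattern (w i) ∧ constantPart (w i) ∈ Q) → ∀ D : ℕ,
            AlongDispersed w (PolyLifts G w D))) ∧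
    -- (5) constant parts of small weight, and constant parts `(2 m, ..., 2 m)`
    (G.mot [2, 1] = G.mot [3] → ∀ (k r : ℕ) (w : Fin r → List (Letter k)),
      (∀ i, AdmissiblePattern (w i) ∧ (constantPart (w i)).sum ≤ 3) → AlongDispersed w (Lifts G w)) ∧
    (SmallRelations G → EulerRelations G → ∀ (k r : ℕ) (w : Fin r → List (Letter k)), SameWeight w →
      (∀ i, AdmissiblePattern (w i) ∧ ((constantPart (w i)).sum ≤ 4 ∨
        ∃ n m : ℕ, 1 ≤ m ∧ constantPart (w i) = List.replicate n (2 * m))) → AlongDispersed w (Lifts G w)) ∧
    (EulerRelations G → ∀ (k r : ℕ) (w : Fin r → List (Letter k)),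
      (∀ i, AdmissiblePattern (w i) ∧
        ∃ n m : ℕ, 1 ≤ m ∧ constantPart (w i) = List.replicate n (2 * m)) →
      ∀ D : ℕ, AlongDispersed w (PolyLifts G w D)) ∧
    -- (6) polynomials
    (∀ (k : ℕ) (p : Fin k → Polynomial ℝ), (∀ b : Fin k → ℤ, b ≠ 0 → 0 < (∑ j, (b j : ℝ) • p j).natDegree) →
      Dispersed fun j n => (p j).eval (n : ℝ)) := by
  obtain ⟨r1, r2, r3, r4, r5⟩ := ExceptionalHyperplanes.result G
  refine ⟨fun k r w hw => along_of (r1 k r w hw), fun Q hQ => ⟨⟨fun h k r w hw => along_of ((r2 Q hQ).1.1 h k r w hw),
    fun h => ?_⟩, ⟨fun h k r w hs hw => along_of ((r2 Q hQ).2.1.1 h k r w hs hw), fun h => ?_⟩,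
    ⟨fun h k r w hw D => along_of ((r2 Q hQ).2.2.1 h k r w hw D), fun h => ?_⟩⟩,
    fun h k r w hw => along_of (r3 h k r w hw), fun h1 h2 k r w hs hw => along_of (r4 h1 h2 k r w hs hw),
    fun h k r w hw D => along_of (r5 h k r w hw D), fun k p hp => Pool.Agent.U553.HY.dispersed_poly p hp⟩
  all_goals
    obtain ⟨h0, hA, hcl⟩ := hQ
    have hA' : ∀ q ∈ Q, q = [] ∨ Pool.Agent.X90.DB.Ad q := fun q hq => (adm_iff q).1 (hA q hq)
    simp only [lifts_iff, polyLifts_iff, constantPart_eq] at h
  · refine inj_of_lift (toMot G) Q Q hA' subset_rfl hcl fun r w hw B => ?_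
    exact good_one (h 1 r w fun i => ⟨(hw i).1, (hw i).2.1⟩) (fun _ _ _ hB h' => h'.mono hB) B
  · intro n
    refine inj_of_lift (toMot G) Q {q ∈ Q | q.sum = n} hA' (fun q hq => hq.1) hcl fun r w hw B => ?_
    refine good_one (h 1 r w (fun i j s => ?_) fun i => ⟨(hw i).1, (hw i).2.1⟩) (fun _ _ _ hB h' => h'.mono hB) B
    obtain ⟨q, hq, hqs⟩ := (hw i).2.2.2
    obtain ⟨q', hq', hqs'⟩ := (hw j).2.2.2
    have e1 : (index s (w i)).sum = q.sum + s 0 := hqs s
    have e2 : (index s (w j)).sum = q'.sum + s 0 := hqs' s
    rw [e1, e2, hq.2, hq'.2]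
  · refine inj_of_liftP (toMot G) Q h0 hA' hcl fun r w hw D B => ?_
    exact good_one (h 1 r w (fun i => ⟨(hw i).1, (hw i).2.1⟩) D) (fun _ _ _ hB h' => h'.mono hB) B

end Pool.Agent.Results.MP_e54452_nt.PolynomialArguments
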